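import Pool.Agent.H315R2.EB.Stubs
import Pool.Agent.H170R2.EB.WIN
import Pool.Agent.H989R2.EB.BLD

namespace Pool.Agent.H315R2.EB

open Module
open scoped Pointwise

namespace COMh

theorem per_gen {X : Type} {G : Type} [Group G] [MulAction G X] (p : G) (m : ℕ) (e : ℤ → X)
    (h : ∀ k, e (k + m) = p • e k) (k q : ℤ) : e (k + q * m) = p ^ q • e k := by
  induction q using Int.induction_on with
  | zero => simp
  | succ i ih =>
    have h1 : k + ((i : ℤ) + 1) * m = (k + i * m) + m := by ring
    rw [h1, h, ih, smul_smul, ← zpow_one_add, add_comm]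
  | pred i ih =>
    have h1 : k + (-(i : ℤ)) * m = (k + (-(i : ℤ) - 1) * m) + m := by ring
    rw [h1, h] at ih
    have h2 := congrArg (fun x => p⁻¹ • x) ih
    simp only [inv_smul_smul] at h2
    rw [h2, smul_smul]
    congr 1
    rw [← zpow_neg_one, ← zpow_add]
    congr 1
    ring

section

variable {O K V : Type} [CommRing O] [IsDomain O] [IsDiscreteValuationRing O]
  [Field K] [Algebra O K] [IsFractionRing O K] [AddCommGroup V] [Module K V] [Module O V]
  [IsScalarTower O K V] [FiniteDimensional K V]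

theorem anti {p : Kˣ} {m : ℕ} {L : ℤ → Submodule O V} (hL : IsChamber O p m L) :
    Antitone L := by
  apply antitone_int_of_succ_le
  intro k
  exact (hL.cov k).le

theorem pow_le' {p : Kˣ} {m : ℕ} {A B : ℤ → Submodule O V}
    (hV : ∀ c : Kˣ, ∃ (u : Oˣ) (k : ℤ), (c : K) = algebraMap O K u * ((p ^ k : Kˣ) : K))
    (h3 : ∀ (L : Lat O K V) (k : ℤ), 0 ≤ k → p ^ k • L.1 ≤ L.1)
    (hA : IsChamber O p m A) (hB : IsChamber O p m B) (k l : ℤ) :
    ∃ n : ℤ, A (k + n * m) ≤ B l := by
  obtain ⟨n, hn⟩ := Pool.Agent.H170R2.EB.pow_le hV (⟨A k, hA.lat k⟩ : Lat O K V)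
    ⟨B l, hB.lat l⟩ (h3 _)
  refine ⟨n, ?_⟩
  rw [per_gen p m A hA.per]
  exact hn

end

end COMh

open COMh in
theorem COM_proof (hV : St_VAL) (hH : St_HOM) (_hL : St_LAM) (hA : St_ADB) : St_COM := by
  intro O K V _ _ _ _ _ _ _ _ _ _ _ p hp m hm hfin L M hL hM
  obtain ⟨hV1, -⟩ := hV O K p hp
  obtain ⟨-, -, hH3, -⟩ := hH O K V p hp
  have hmz : (0 : ℤ) < m := by exact_mod_cast hm
  have hperL := per_gen p m L hL.per
  have hperM := per_gen p m M hM.per
  have hLa := anti hL
  have hMa := anti hM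
  -- membership and homotheties
  have hsm : ∀ (N : Submodule O V) (q : ℤ) (x : V), p ^ q • x ∈ p ^ q • N ↔ x ∈ N := by
    intro N q x
    constructor
    · rintro ⟨y, hy, hxy⟩
      have h1 : y = x := by
        have h2 : p ^ q • y = p ^ q • x := hxy
        have h3 := congrArg (fun z => (p ^ q)⁻¹ • z) h2
        simpa only [inv_smul_smul] using h3
      rw [← h1]
      exact hy
    · intro hx
      exact ⟨x, hx, rfl⟩
  -- the relation
  let good : ℤ → ℤ → Prop := fun k j => ∃ x, x ∈ M j ∧ x ∈ L k ∧ x ∉ L (k + 1)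
  have hgood_ex : ∀ k, ∃ j, good k j := by
    intro k
    obtain ⟨n, hn⟩ := pow_le' hV1 hH3 hL hM k 0
    obtain ⟨x, hx1, hx2⟩ := Set.exists_of_ssubset (hL.cov k).lt
    refine ⟨-n * m, x, ?_, hx1, hx2⟩
    have h1 : M (-n * m) = p ^ (-n) • M 0 := by
      rw [← hperM, zero_add]
    rw [h1]
    have h2 : p ^ n • x ∈ M 0 := by
      apply hn
      rw [hperL]
      exact (hsm _ _ _).2 hx1
    have h3 : p ^ (-n) • (p ^ n • x) ∈ p ^ (-n) • M 0 := (hsm _ _ _).2 h2
    rwa [smul_smul, ← zpow_add, neg_add_cancel, zpow_zero, one_smul] at h3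
  have hgood_mono : ∀ k j j', j ≤ j' → good k j' → good k j := by
    rintro k j j' hj ⟨x, h1, h2, h3⟩
    exact ⟨x, hMa hj h1, h2, h3⟩
  have hgood_bdd : ∀ k, ∃ b, ∀ j, good k j → j ≤ b := by
    intro k
    obtain ⟨n, hn⟩ := pow_le' hV1 hH3 hM hL 0 (k + 1)
    refine ⟨0 + n * m, fun j hj => ?_⟩
    by_contra hcon
    obtain ⟨x, h1, h2, h3⟩ := hgood_mono k (0 + n * m) j (by omega) hj
    exact h3 (hn h1)
  have hσ : ∀ k, ∃ j, good k j ∧ ∀ j', good k j' → j' ≤ j := by
    intro k
    exact Int.exists_greatest_of_bdd (hgood_bdd k) (hgood_ex k)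
  choose σ hσ1 hσ2 using hσ
  have hgood_per : ∀ k j, good k j → good (k + m) (j + m) := by
    rintro k j ⟨x, h1, h2, h3⟩
    refine ⟨p • x, ?_, ?_, ?_⟩
    · rw [hM.per]
      have := (hsm (M j) 1 x).2 h1
      rwa [zpow_one] at this
    · rw [hL.per]
      have := (hsm (L k) 1 x).2 h2
      rwa [zpow_one] at this
    · intro h
      apply h3
      have h4 : k + m + 1 = (k + 1) + m := by ring
      rw [h4, hL.per] at h
      have := (hsm (L (k + 1)) 1 x).1 (by rw [zpow_one]; exact h)
      exact this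
  have hgood_per' : ∀ k j, good (k + m) (j + m) → good k j := by
    rintro k j ⟨x, h1, h2, h3⟩
    have hx : x = p ^ (1 : ℤ) • (p ^ (-1 : ℤ) • x) := by
      rw [smul_smul, ← zpow_add]
      simp
    refine ⟨p ^ (-1 : ℤ) • x, ?_, ?_, ?_⟩
    · rw [hM.per, hx] at h1
      refine (hsm (M j) 1 _).1 ?_
      rw [zpow_one] at h1 ⊢
      exact h1
    · rw [hL.per, hx] at h2
      refine (hsm (L k) 1 _).1 ?_
      rw [zpow_one] at h2 ⊢
      exact h2
    · intro h
      apply h3
      have h4 : k + m + 1 = (k + 1) + m := by ring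
      rw [h4, hL.per, hx]
      have := (hsm (L (k + 1)) 1 _).2 h
      rw [zpow_one] at this ⊢
      exact this
  have hσper : ∀ k, σ (k + m) = σ k + m := by
    intro k
    apply le_antisymm
    · have h1 : good (k + m) ((σ (k + m) - m) + m) := by
        rw [sub_add_cancel]
        exact hσ1 _
      have := hσ2 k _ (hgood_per' _ _ h1)
      omega
    · exact hσ2 _ _ (hgood_per _ _ (hσ1 k))
  have hσq : ∀ k q : ℤ, σ (k + q * m) = σ k + q * m := by
    intro k q
    induction q using Int.induction_on with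
    | zero => simp
    | succ i ih =>
      have h1 : k + ((i : ℤ) + 1) * m = (k + i * m) + m := by ring
      rw [h1, hσper, ih]
      ring
    | pred i ih =>
      have h1 : k + (-(i : ℤ)) * m = (k + (-(i : ℤ) - 1) * m) + m := by ring
      rw [h1, hσper] at ih
      linarith
  -- the adapted sequence
  choose x hx1 hx2 hx3 using hσ1
  let e : ℤ → V := fun k => p ^ (k / m) • x (k % m)
  have hdecomp : ∀ k : ℤ, k % m + (k / m) * m = k := by
    intro k
    have := Int.emod_add_mul_ediv k m
    linarith [mul_comm (k / (m : ℤ)) (m : ℤ)]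
  have heM : ∀ k, e k ∈ M (σ k) := by
    intro k
    have h1 : M (σ k) = p ^ (k / m) • M (σ (k % m)) := by
      conv_lhs => rw [← hdecomp k]
      rw [hσq, hperM]
    rw [h1]
    exact (hsm _ _ _).2 (hx1 _)
  have heL : ∀ k, e k ∈ L k := by
    intro k
    have h1 : L k = p ^ (k / m) • L (k % m) := by
      conv_lhs => rw [← hdecomp k]
      rw [hperL]
    rw [h1]
    exact (hsm _ _ _).2 (hx2 _)
  have heL' : ∀ k, e k ∉ L (k + 1) := by
    intro k
    have h1 : L (k + 1) = p ^ (k / m) • L (k % m + 1) := by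
      have h2 : k + 1 = (k % m + 1) + (k / m) * m := by
        have := hdecomp k
        linarith
      conv_lhs => rw [h2]
      rw [hperL]
    rw [h1]
    intro h
    exact hx3 _ ((hsm _ _ _).1 h)
  have heper : ∀ k, e (k + m) = p • e k := by
    intro k
    show p ^ ((k + m) / m) • x ((k + m) % m) = p • (p ^ (k / m) • x (k % m))
    rw [Int.add_emod_right, Int.add_ediv_of_dvd_right (dvd_refl _), Int.ediv_self hmz.ne',
      smul_smul, ← zpow_one_add, add_comm]
  have had : IsAdapted O p m L e := ⟨heL, heL', heper⟩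
  -- injectivity
  have hinj : ∀ k l, k < l → σ k ≠ σ l := by
    intro k l hkl heq
    have h1 : e l ∉ M (σ l + 1) := by
      intro h
      have := hσ2 l (σ l + 1) ⟨e l, h, heL l, heL' l⟩
      omega
    have h2 : M (σ l + 1) ⊔ Submodule.span O {e l} = M (σ l) := by
      have hle : M (σ l + 1) ⊔ Submodule.span O {e l} ≤ M (σ l) :=
        sup_le (hM.cov _).le (by
          rw [Submodule.span_singleton_le_iff_mem]
          exact heM l)
      have hge : M (σ l + 1) ≤ M (σ l + 1) ⊔ Submodule.span O {e l} := le_sup_left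
      rcases (hM.cov (σ l)).eq_or_eq hge hle with h | h
      · exfalso
        apply h1
        rw [← h]
        exact Submodule.mem_sup_right (Submodule.mem_span_singleton_self _)
      · exact h
    have h3 : e k ∈ M (σ l + 1) ⊔ Submodule.span O {e l} := by
      rw [h2, ← heq]
      exact heM k
    rw [Submodule.mem_sup] at h3
    obtain ⟨y, hy, z, hz, hyz⟩ := h3
    obtain ⟨u, rfl⟩ := Submodule.mem_span_singleton.1 hz
    have hel : e l ∈ L (k + 1) := hLa (by omega) (heL l)
    have hy' : y = e k - u • e l := by rw [← hyz]; abel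
    have hgood : good k (σ k + 1) := by
      refine ⟨y, by rw [heq]; exact hy, ?_, ?_⟩
      · rw [hy']
        exact Submodule.sub_mem _ (heL k) (Submodule.smul_mem _ _ (hLa (by omega) hel))
      · intro h
        apply heL' k
        rw [← hyz]
        exact Submodule.add_mem _ h (Submodule.smul_mem _ _ hel)
    have := hσ2 k _ hgood
    omega
  have hinj' : Function.Injective σ := by
    intro k l hkl
    rcases lt_trichotomy k l with h | h | h
    · exact absurd hkl (hinj k l h)
    · exact h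
    · exact absurd hkl.symm (hinj l k h)
  -- surjectivity
  have hsurj : Function.Surjective σ := by
    let f : Fin m → Fin m := fun r => ⟨(σ r % m).toNat, by
      have h1 := Int.emod_lt_of_pos (σ r) hmz
      have h2 := Int.emod_nonneg (σ r) hmz.ne'
      omega⟩
    have hf : Function.Injective f := by
      intro r r' hrr
      have h1 : (σ r % m).toNat = (σ r' % m).toNat := congrArg Fin.val hrr
      have h2 := Int.emod_nonneg (σ (r : ℕ)) hmz.ne'
      have h3 := Int.emod_nonneg (σ (r' : ℕ)) hmz.ne'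
      have h4 : σ (r : ℕ) % m = σ (r' : ℕ) % m := by omega
      have h5 := hdecomp (σ (r : ℕ))
      have h6 := hdecomp (σ (r' : ℕ))
      have h7 : σ (r : ℕ) = σ ((r' : ℕ) + (σ (r : ℕ) / m - σ (r' : ℕ) / m) * m) := by
        rw [hσq]
        linarith
      have h8 := hinj' h7
      have h9 := r.isLt
      have h10 := r'.isLt
      have h11 : σ (r : ℕ) / m - σ (r' : ℕ) / m = 0 := by
        by_contra hne
        rcases lt_or_gt_of_ne hne with h | h
        · nlinarith
        · nlinarith
      rw [h11] at h8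
      apply Fin.ext
      omega
    have hf' := Finite.injective_iff_surjective.1 hf
    intro j
    obtain ⟨r, hr⟩ := hf' ⟨(j % m).toNat, by
      have h1 := Int.emod_lt_of_pos j hmz
      have h2 := Int.emod_nonneg j hmz.ne'
      omega⟩
    have h1 : (σ r % m).toNat = (j % m).toNat := congrArg Fin.val hr
    have h2 := Int.emod_nonneg (σ (r : ℕ)) hmz.ne'
    have h3 := Int.emod_nonneg j hmz.ne'
    have h5 := hdecomp (σ (r : ℕ))
    have h6 := hdecomp j
    refine ⟨(r : ℕ) + (j / m - σ (r : ℕ) / m) * m, ?_⟩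
    rw [hσq]
    have h4 : σ (r : ℕ) % m = j % m := by omega
    linarith
  let τ : ℤ ≃ ℤ := Equiv.ofBijective σ ⟨hinj', hsurj⟩
  have hτ : ∀ j, σ (τ.symm j) = j := fun j => Equiv.ofBijective_apply_symm_apply σ _ j
  have hτper : ∀ j q : ℤ, τ.symm (j + q * m) = τ.symm j + q * m := by
    intro j q
    apply hinj'
    rw [hτ, hσq, hτ]
  have had' : IsAdapted O p m M (fun j => e (τ.symm j)) := by
    refine ⟨fun j => ?_, fun j => ?_, fun j => ?_⟩
    · have := heM (τ.symm j)
      rwa [hτ] at this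
    · intro h
      have := hσ2 (τ.symm j) (j + 1) ⟨_, h, heL _, heL' _⟩
      rw [hτ] at this
      omega
    · have := hτper j 1
      rw [one_mul] at this
      show e (τ.symm (j + m)) = p • e (τ.symm j)
      rw [this, heper]
  obtain ⟨b, hb, hbL⟩ := hA O K V p hp m hm hfin L e hL had
  obtain ⟨b', hb', hbM⟩ := hA O K V p hp m hm hfin M _ hM had'
  refine ⟨b, fun k => ⟨_, hbL k⟩, ?_⟩
  -- the permutation of `Fin m`
  let g : Fin m → Fin m := fun i => ⟨(τ.symm i % m).toNat, by
    have h1 := Int.emod_lt_of_pos (τ.symm i) hmz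
    have h2 := Int.emod_nonneg (τ.symm i) hmz.ne'
    omega⟩
  have hgval : ∀ i : Fin m, ((g i : ℕ) : ℤ) = τ.symm i % m := by
    intro i
    have h2 := Int.emod_nonneg (τ.symm (i : ℕ)) hmz.ne'
    show (((τ.symm i % m).toNat : ℕ) : ℤ) = _
    omega
  have hg : Function.Injective g := by
    intro i i' hii
    have h1 : τ.symm (i : ℕ) % m = τ.symm (i' : ℕ) % m := by
      rw [← hgval, ← hgval, hii]
    have h5 := hdecomp (τ.symm (i : ℕ))
    have h6 := hdecomp (τ.symm (i' : ℕ))
    have h7 : τ.symm (i : ℕ) =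
        τ.symm ((i' : ℕ) + (τ.symm (i : ℕ) / m - τ.symm (i' : ℕ) / m) * m) := by
      rw [hτper]
      linarith
    have h8 := τ.symm.injective h7
    have h9 := i.isLt
    have h10 := i'.isLt
    have h11 : τ.symm (i : ℕ) / m - τ.symm (i' : ℕ) / m = 0 := by
      by_contra hne
      rcases lt_or_gt_of_ne hne with h | h
      · nlinarith
      · nlinarith
    rw [h11] at h8
    apply Fin.ext
    omega
  let G : Equiv.Perm (Fin m) := Equiv.ofBijective g (Finite.injective_iff_bijective.1 hg)
  have hG : ∀ i : Fin m, b' i = p ^ (τ.symm (i : ℕ) / m) • b (G i) := by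
    intro i
    rw [hb' i, hb (G i)]
    show e (τ.symm i) = p ^ (τ.symm (i : ℕ) / m) • e ((g i : ℕ) : ℤ)
    rw [hgval, ← per_gen p m e heper, hdecomp]
  intro k
  exact ⟨_, (hbM k).trans (BLDh.lam_reindex hG _)⟩

end Pool.Agent.H315R2.EB
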