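import Pool.Agent.H315R2.EB.Stubs

namespace Pool.Agent.H315R2.EB

open Module
open scoped Pointwise

theorem EXA_cexp (m : ℕ) (j : ℕ) (hj : j < m) (t : Fin m) :
    cexp m (j : ℤ) t = if (t : ℕ) < j then 1 else 0 := by
  unfold cexp
  have ht := t.isLt
  split_ifs with h
  · have h1 : (((t : ℕ) : ℤ) - (j : ℤ)) / (m : ℤ) = -1 := by
      rw [Int.ediv_eq_iff_of_pos (by omega)]
      constructor <;> push_cast <;> nlinarith
    rw [h1]
    rfl
  · have h1 : (((t : ℕ) : ℤ) - (j : ℤ)) / (m : ℤ) = 0 := by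
      apply Int.ediv_eq_zero_of_lt <;> omega
    rw [h1]
    rfl

/-- Complete flags of subsets of `Fin m` come from permutations. -/
theorem EXA_perm (m : ℕ) (F : ℕ → Finset (Fin m)) (h1 : ∀ i ≤ m, (F i).card = i)
    (h2 : ∀ i j, i ≤ j → j ≤ m → F i ≤ F j) :
    ∃ τ : Equiv.Perm (Fin m), ∀ (t : Fin m) (j : ℕ), j ≤ m → (τ t ∈ F j ↔ (t : ℕ) < j) := by
  have h3 : ∀ t : Fin m, ∃ x, x ∈ F (t + 1) ∧ x ∉ F t := by
    intro t
    have hlt : (F t).card < (F (t + 1)).card := by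
      rw [h1 _ (by omega), h1 _ (by omega)]
      omega
    obtain ⟨x, hx1, hx2⟩ := Finset.exists_mem_notMem_of_card_lt_card hlt
    exact ⟨x, hx1, hx2⟩
  choose f hf1 hf2 using h3
  have key : ∀ (t : Fin m) (j : ℕ), j ≤ m → (f t ∈ F j ↔ (t : ℕ) < j) := by
    intro t j hj
    constructor
    · intro h
      by_contra hcon
      exact hf2 t (h2 j t (by omega) (by omega) h)
    · intro h
      exact h2 (t + 1) j (by omega) hj (hf1 t)
  have hinj : Function.Injective f := by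
    intro t t' htt
    by_contra hne
    rcases lt_or_gt_of_ne (fun h : (t : ℕ) = t' => hne (Fin.ext h)) with h | h
    · have := (key t t' (by omega)).2 h
      rw [htt] at this
      exact absurd ((key t' t' (by omega)).1 this) (by omega)
    · have := (key t' t (by omega)).2 h
      rw [← htt] at this
      exact absurd ((key t t (by omega)).1 this) (by omega)
  exact ⟨Equiv.ofBijective f (Finite.injective_iff_bijective.1 hinj), key⟩

theorem EXA_proof (hF : St_FLAG) (_hV : St_VAL) (hH : St_HOM) (hL : St_LAM) (hW : St_WIN)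
    (hS : St_STD) : St_EXA := by
  intro O K V _ _ _ _ _ _ _ _ _ _ _ p hp m hm hfin b s hs hsb
  obtain ⟨-, hH2, -, -⟩ := hH O K V p hp
  obtain ⟨hL1, -, hL3, hL4⟩ := hL O K V p hp (Fin m) b
  obtain ⟨x0, hx0⟩ := hs.1
  obtain ⟨L0, hL0x, a0, hL0⟩ := hsb hx0
  have hp1 : ∀ a, p • Lam O p b a = Lam O p b (fun i => a i + 1) := by
    intro a
    have := hL4 a 1
    rwa [zpow_one] at this
  -- representatives
  have hrep : ∀ x ∈ s, ∃ a : Fin m → ℤ, (∀ i, a0 i ≤ a i) ∧ (∀ i, a i ≤ a0 i + 1) ∧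
      (¬ ∀ i, a i = a0 i + 1) ∧ ∃ l : Lat O K V, l.1 = Lam O p b a ∧ cls l = x := by
    intro x hx
    obtain ⟨L, hLx, a', hL'⟩ := hsb hx
    have hface : ∀ k : ℤ, p ^ k • L.1 ≤ L0.1 ∨ L0.1 ≤ p ^ k • L.1 := by
      intro k
      have hlat : Submodule.IsLattice K (p ^ k • L.1) := by
        have := L.2
        infer_instance
      have h1 : cls (⟨p ^ k • L.1, hlat⟩ : Lat O K V) = x := by
        rw [← hLx]
        exact ((hH2 _ _).2 ⟨k, rfl⟩).symm
      exact hs.2 ⟨p ^ k • L.1, hlat⟩ L0 (by rw [h1]; exact hx) (by rw [hL0x]; exact hx0)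
    obtain ⟨k, hk1, hk2⟩ := hW O K V p hp (by omega) L L0 hface
    rw [hL', hL4, hL0, hL3] at hk1
    rw [hL', hL4, hL0, hp1] at hk2
    refine ⟨fun i => a' i + k, hk1, (hL3 _ _).1 hk2.le, ?_, ⟨Lam O p b (fun i => a' i + k),
      hL1 _⟩, rfl, ?_⟩
    · intro hall
      apply hk2.ne
      congr 1
      funext i
      exact (hall i).symm
    · rw [← hLx]
      refine ((hH2 _ _).2 ⟨k, ?_⟩).symm
      rw [hL', hL4]
  have hne : Nonempty (Lat O K V) := ⟨L0⟩
  choose! A hA1 hA2 hA3 l hl1 hl2 using hrep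
  let S : Vert O K V → Finset (Fin m) := fun x => Finset.univ.filter fun i => A x i = a0 i + 1
  have hchain : IsChain (· ≤ ·) (S '' (s : Set (Vert O K V))) := by
    rintro _ ⟨x, hx, rfl⟩ _ ⟨y, hy, rfl⟩ -
    have hle : ∀ x ∈ s, ∀ y ∈ s, (l x).1 ≤ (l y).1 → S y ≤ S x := by
      intro x hx y hy hxy i hi
      rw [hl1 x hx, hl1 y hy, hL3] at hxy
      simp only [S, Finset.mem_filter, Finset.mem_univ, true_and] at hi ⊢
      have h1 := hxy i
      have h2 := hA2 x hx i
      omega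
    rcases hs.2 (l x) (l y) (by rw [hl2 x hx]; exact hx) (by rw [hl2 y hy]; exact hy) with h | h
    · exact Or.inr (hle x hx y hy h)
    · exact Or.inl (hle y hy x hx h)
  obtain ⟨F, hF1, hF2, hF3⟩ := hF (Finset (Fin m)) m Finset.card
    (fun _ _ h => Finset.card_lt_card h) (by simp) (by simp)
    (fun X Y i hXY h1 h2 => by
      obtain ⟨Z, hZ1, hZ2, hZ3⟩ := Finset.exists_subsuperset_card_eq hXY h1 h2
      exact ⟨Z, hZ1, hZ2, hZ3⟩) _ hchain
  obtain ⟨τ, hτ⟩ := EXA_perm m F hF1 hF2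
  let b' : Basis (Fin m) K V := (b.reindex τ.symm).unitsSMul (fun j => p ^ a0 (τ j))
  have hb' : ∀ j, b' j = p ^ a0 (τ j) • b (τ j) := by
    intro j
    simp only [b', Basis.unitsSMul_apply, Basis.reindex_apply, Equiv.symm_symm]
  have hlam : ∀ c : Fin m → ℤ, Lam O p b' c = Lam O p b (fun i => a0 i + c (τ.symm i)) := by
    intro c
    unfold Lam
    congr 1
    ext v
    constructor
    · rintro ⟨j, rfl⟩
      refine ⟨τ j, ?_⟩
      show p ^ (a0 (τ j) + c (τ.symm (τ j))) • b (τ j) = p ^ c j • b' j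
      rw [hb', smul_smul, ← zpow_add, Equiv.symm_apply_apply, add_comm]
    · rintro ⟨i, rfl⟩
      refine ⟨τ.symm i, ?_⟩
      show p ^ c (τ.symm i) • b' (τ.symm i) = p ^ (a0 i + c (τ.symm i)) • b i
      rw [hb', smul_smul, ← zpow_add, Equiv.apply_symm_apply, add_comm]
  refine ⟨fun k => Lam O p b' (cexp m k), hS O K V p hp m b' hm, fun k => ⟨_, hlam _⟩, ?_⟩
  intro x hx
  refine ⟨l x, hl2 x hx, ?_⟩
  obtain ⟨j, hj, hFj⟩ := hF3 (S x) ⟨x, hx, rfl⟩
  have hjm : j < m := by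
    rcases lt_or_eq_of_le hj with h | h
    · exact h
    · exfalso
      have h1 : F m = Finset.univ := by
        apply Finset.eq_univ_of_card
        rw [hF1 m le_rfl, Fintype.card_fin]
      rw [h, h1] at hFj
      apply hA3 x hx
      intro i
      have h2 : i ∈ S x := by
        rw [← hFj]
        exact Finset.mem_univ i
      simpa only [S, Finset.mem_filter, Finset.mem_univ, true_and] using h2
  refine ⟨(j : ℤ), ?_⟩
  show (l x).1 = Lam O p b' (cexp m (j : ℤ))
  rw [hl1 x hx, hlam]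
  congr 1
  funext i
  rw [EXA_cexp m j hjm]
  have h3 := hτ (τ.symm i) j hj
  rw [Equiv.apply_symm_apply, hFj] at h3
  simp only [S, Finset.mem_filter, Finset.mem_univ, true_and] at h3
  have h4 := hA1 x hx i
  have h5 := hA2 x hx i
  split_ifs with h
  · exact h3.2 h
  · have h6 : ¬ A x i = a0 i + 1 := fun hh => h (h3.1 hh)
    omega

end Pool.Agent.H315R2.EB
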