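import Pool.Agent.H315R2.EB.Stubs

namespace Pool.Agent.H315R2.EB

open Module
open scoped Pointwise

theorem LAM_proof (hV : St_VAL) : St_LAM := by
  intro O K V _ _ _ _ _ _ _ _ _ _ _ p hp ι _ b
  classical
  have _ := Fintype.ofFinite ι
  obtain ⟨-, hV2⟩ := hV O K p hp
  have hsm : ∀ (r : O) (u : Kˣ) (v : V), r • (u • v) = (algebraMap O K r * (u : K)) • v := by
    intro r u v
    rw [← IsScalarTower.algebraMap_smul K r (u • v), mul_smul]
    rfl
  have hmem : ∀ a x, x ∈ Lam O p b a ↔
      ∀ i, ∃ r : O, b.repr x i = algebraMap O K r * ((p ^ a i : Kˣ) : K) := by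
    intro a x
    unfold Lam
    rw [Submodule.mem_span_range_iff_exists_fun]
    constructor
    · rintro ⟨c, rfl⟩ i
      refine ⟨c i, ?_⟩
      simp only [hsm]
      rw [b.repr_sum_self]
    · intro h
      choose r hr using h
      refine ⟨r, ?_⟩
      simp only [hsm]
      conv_rhs => rw [← b.sum_repr x]
      exact Finset.sum_congr rfl fun i _ => by rw [hr i]
  have hbas : ∀ (a : ι → ℤ) (i : ι), p ^ a i • b i ∈ Lam O p b a := fun a i =>
    Submodule.subset_span ⟨i, rfl⟩
  have hrep : ∀ (u : Kˣ) (i j : ι), b.repr (u • b i) j = if i = j then (u : K) else 0 := by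
    intro u i j
    have h : u • b i = (u : K) • b i := rfl
    rw [h, map_smul, Finsupp.smul_apply, Basis.repr_self, Finsupp.single_apply]
    split_ifs <;> simp
  refine ⟨?_, hmem, ?_, ?_⟩
  · intro a
    refine ⟨Submodule.fg_span (Set.finite_range _), ?_⟩
    rw [eq_top_iff, ← b.span_eq, Submodule.span_le]
    rintro _ ⟨i, rfl⟩
    have h1 : b i = (((p ^ a i)⁻¹ : Kˣ) : K) • (p ^ a i • b i) := by
      have h2 : (((p ^ a i)⁻¹ : Kˣ) : K) • (p ^ a i • b i) = (p ^ a i)⁻¹ • (p ^ a i • b i) := rfl
      rw [h2, inv_smul_smul]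
    rw [SetLike.mem_coe, h1]
    exact Submodule.smul_mem _ _ (Submodule.subset_span (hbas a i))
  · intro a a'
    constructor
    · intro h i
      have h1 := (hmem a' _).1 (h (hbas a i)) i
      obtain ⟨r, hr⟩ := h1
      rw [hrep, if_pos rfl] at hr
      have h2 : algebraMap O K r = ((p ^ (a i - a' i) : Kˣ) : K) := by
        rw [zpow_sub, Units.val_mul, hr, mul_assoc, ← Units.val_mul, mul_inv_cancel, Units.val_one,
          mul_one]
      have := (hV2 (a i - a' i)).1 ⟨r, h2⟩
      omega
    · intro h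
      unfold Lam
      rw [Submodule.span_le]
      rintro _ ⟨i, rfl⟩
      obtain ⟨r, hr⟩ := (hV2 (a i - a' i)).2 (by have := h i; omega)
      rw [SetLike.mem_coe]
      have h3 : p ^ a i • b i = r • (p ^ a' i • b i) := by
        rw [hsm, hr, ← Units.val_mul, ← zpow_add, sub_add_cancel]
        rfl
      show p ^ a i • b i ∈ Lam O p b a'
      rw [h3]
      exact Submodule.smul_mem _ _ (hbas a' i)
  · intro a k
    have hle : ∀ (c : Kˣ) (a a' : ι → ℤ) (_ : ∀ i, c * p ^ a i = p ^ a' i),
        c • Lam O p b a ≤ Lam O p b a' := by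
      rintro c a a' hc _ ⟨x, hx, rfl⟩
      rw [hmem]
      intro i
      obtain ⟨r, hr⟩ := (hmem a x).1 hx i
      refine ⟨r, ?_⟩
      have h4 : b.repr (c • x) i = (c : K) * b.repr x i := by
        have h : c • x = (c : K) • x := rfl
        rw [h, map_smul, Finsupp.smul_apply, smul_eq_mul]
      refine h4.trans ?_
      rw [hr, mul_left_comm, ← Units.val_mul, hc]
    apply le_antisymm
    · exact hle _ _ _ fun i => by rw [← zpow_add, add_comm]
    · have h5 := hle (p ^ (-k)) (fun i => a i + k) a fun i => by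
        rw [← zpow_add]
        congr 1
        ring
      intro x hx
      have h6 : p ^ (-k) • x ∈ Lam O p b a := h5 ⟨x, hx, rfl⟩
      refine ⟨p ^ (-k) • x, h6, ?_⟩
      show p ^ k • (p ^ (-k) • x) = x
      rw [smul_smul, ← zpow_add, add_neg_cancel, zpow_zero, one_smul]

end Pool.Agent.H315R2.EB
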