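import Pool.Agent.H315R2.EB.Stubs

namespace Pool.Agent.H315R2.EB

open HahnSeries


/-- Polynomials in the inverse of the uniformiser. -/
noncomputable def psi : Polynomial (ZMod 2) →+* (LaurentSeries (ZMod 2)) :=
  Polynomial.eval₂RingHom (HahnSeries.C : ZMod 2 →+* HahnSeries ℤ (ZMod 2))
    (HahnSeries.single (-1 : ℤ) (1 : ZMod 2))

theorem psi_monomial (k : ℕ) (c : ZMod 2) :
    psi (Polynomial.monomial k c) = HahnSeries.single (-(k : ℤ)) c := by
  unfold psi
  rw [Polynomial.coe_eval₂RingHom, Polynomial.eval₂_monomial, HahnSeries.single_pow, one_pow,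
    HahnSeries.C_apply, HahnSeries.single_mul_single]
  simp

theorem psi_coeff (q : Polynomial (ZMod 2)) (k : ℕ) :
    (psi q).coeff (-(k : ℤ)) = q.coeff k := by
  induction q using Polynomial.induction_on' with
  | add p q hp hq => rw [map_add, HahnSeries.coeff_add, hp, hq, Polynomial.coeff_add]
  | monomial j c =>
    rw [psi_monomial, Polynomial.coeff_monomial]
    by_cases h : j = k
    · subst h
      rw [HahnSeries.coeff_single_same, if_pos rfl]
    · rw [HahnSeries.coeff_single_of_ne (by omega), if_neg h]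

theorem coeff_neg (x : (PowerSeries (ZMod 2))) (k : ℤ) (hk : k < 0) :
    (algebraMap (PowerSeries (ZMod 2)) (LaurentSeries (ZMod 2)) x).coeff k = 0 := by
  have h : (algebraMap (PowerSeries (ZMod 2)) (LaurentSeries (ZMod 2)) x) = HahnSeries.ofPowerSeries ℤ (ZMod 2) x := rfl
  rw [h, PowerSeries.coeff_coe, if_pos hk]

theorem LAU_proof : St_LAU := by
  refine ⟨⟨PowerSeries.X, PowerSeries.X_prime.irreducible, ?_⟩, ?_, psi, ?_, ?_⟩
  · show HahnSeries.ofPowerSeries ℤ (ZMod 2) PowerSeries.X = _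
    rw [HahnSeries.ofPowerSeries_X]
    rfl
  · exact Finite.of_equiv (ZMod 2) (PowerSeries.residueFieldOfPowerSeries).symm.toEquiv
  · rintro q ⟨x, hx⟩
    by_contra h0
    have h1 : q.coeff q.natDegree = 0 := by
      rw [← psi_coeff, ← hx]
      exact coeff_neg x _ (by omega)
    rw [Polynomial.coeff_natDegree, Polynomial.leadingCoeff_eq_zero] at h1
    rw [h1] at h0
    exact h0 Polynomial.natDegree_zero
  · rintro q ⟨x, hx⟩
    ext k
    rw [← psi_coeff, ← hx, Polynomial.coeff_zero]
    have h1 : ((lp : (LaurentSeries (ZMod 2))ˣ) : (LaurentSeries (ZMod 2))) = HahnSeries.single (1 : ℤ) (1 : ZMod 2) := rfl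
    rw [h1]
    have h2 : (-(k : ℤ)) = (-(k : ℤ) - 1) + 1 := by ring
    rw [h2, HahnSeries.coeff_mul_single_add, mul_one]
    exact coeff_neg x _ (by omega)

end Pool.Agent.H315R2.EB
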