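import Pool.Agent.H315R2.EB.Defs

/-!
# Statements to be proved (MP_26e62b_al)
-/

namespace Pool.Agent.H315R2.EB

open Module
open scoped Pointwise

/-- AL: faces of the alcove complex, combinatorially. -/
def St_AL : Prop := ∀ (n : ℕ) (s : Finset (AlcoveVertex n)),
  s ∈ (alcoveComplex n).faces ↔
    s.Nonempty ∧ ∀ v ∈ s, ∀ w ∈ s, ∀ i j, (v.1 i - v.1 j) - (w.1 i - w.1 j) ≤ 1

/-- TOP: a point with trivial stabiliser gives a faithful and discrete action. -/
def St_TOP : Prop := ∀ (G V : Type) [Group G] (Δ : PreAbstractSimplicialComplex V)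
  (ρ : G →* autGroup Δ) (v : V), (∀ g : G, (ρ g).1 v = v → g = 1) →
  Function.Injective ρ ∧
    @DiscreteTopology ρ.range (TopologicalSpace.induced Subtype.val (autTopology Δ))

/-- FLAG: chains extend to complete flags. -/
def St_FLAG : Prop := ∀ (P : Type) [PartialOrder P] [BoundedOrder P] (m : ℕ) (r : P → ℕ),
  StrictMono r → r ⊥ = 0 → r ⊤ = m →
  (∀ (A B : P) (i : ℕ), A ≤ B → r A ≤ i → i ≤ r B → ∃ X, A ≤ X ∧ X ≤ B ∧ r X = i) →
  ∀ S : Set P, IsChain (· ≤ ·) S → ∃ F : ℕ → P, (∀ i ≤ m, r (F i) = i) ∧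
    (∀ i j, i ≤ j → j ≤ m → F i ≤ F j) ∧ ∀ X ∈ S, ∃ i ≤ m, F i = X

/-- RAC: the clique automaton representation. -/
def St_RAC : Prop := ∀ (B : Type) [Fintype B] [DecidableEq B] (M : CoxeterMatrix B),
  IsRightAngled M → ∃ ρ : M.Group →* (Matrix (Finset B) (Finset B) (Polynomial (ZMod 2)))ˣ,
    ∀ w, w ≠ 1 → ∃ i j, 0 < ((ρ w).1 i j).natDegree

/-- SUR: surface groups embed in right-angled Coxeter groups. -/
def St_SUR : Prop := ∀ g : ℕ, 1 ≤ g → ∃ (B : Type) (_ : Fintype B) (_ : DecidableEq B)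
  (M : CoxeterMatrix B), IsRightAngled M ∧
    ∃ φ : SurfaceGroup g →* M.Group, Function.Injective φ

/-- The uniformiser of `LaurentSeries (ZMod 2)`. -/
noncomputable def lp : (LaurentSeries (ZMod 2))ˣ :=
  Units.mk0 (HahnSeries.single 1 1) (by
    intro h
    have h1 := congrArg (fun x => HahnSeries.coeff x (1 : ℤ)) h
    simp at h1)

/-- LAU: polynomials in the inverse of the uniformiser. -/
def St_LAU : Prop :=
  IsUnif (PowerSeries (ZMod 2)) lp ∧
  Finite (IsLocalRing.ResidueField (PowerSeries (ZMod 2))) ∧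
  ∃ ψ : Polynomial (ZMod 2) →+* LaurentSeries (ZMod 2),
    (∀ q, (∃ x : PowerSeries (ZMod 2), algebraMap _ (LaurentSeries (ZMod 2)) x = ψ q) →
      q.natDegree = 0) ∧
    (∀ q, (∃ x : PowerSeries (ZMod 2),
      algebraMap _ (LaurentSeries (ZMod 2)) x * lp = ψ q) → q = 0)

/-- VAL: valuations of elements of `K`. -/
def St_VAL : Prop := ∀ (O K : Type) [CommRing O] [IsDomain O] [IsDiscreteValuationRing O]
  [Field K] [Algebra O K] [IsFractionRing O K] (p : Kˣ), IsUnif O p →
  (∀ c : Kˣ, ∃ (u : Oˣ) (k : ℤ), (c : K) = algebraMap O K u * ((p ^ k : Kˣ) : K)) ∧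
  (∀ k : ℤ, (∃ x : O, algebraMap O K x = ((p ^ k : Kˣ) : K)) ↔ 0 ≤ k)

/-- HOM: homotheties act through powers of `p`. -/
def St_HOM : Prop := ∀ (O K V : Type) [CommRing O] [IsDomain O] [IsDiscreteValuationRing O]
  [Field K] [Algebra O K] [IsFractionRing O K] [AddCommGroup V] [Module K V] [Module O V]
  [IsScalarTower O K V] [FiniteDimensional K V] (p : Kˣ), IsUnif O p →
  (∀ c : Kˣ, ∃ k : ℤ, ∀ L : Submodule O V, c • L = p ^ k • L) ∧
  (∀ L L' : Lat O K V, cls L = cls L' ↔ ∃ k : ℤ, L'.1 = p ^ k • L.1) ∧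
  (∀ (L : Lat O K V) (k : ℤ), 0 ≤ k → p ^ k • L.1 ≤ L.1) ∧
  (0 < finrank K V → ∀ L : Lat O K V, p • L.1 < L.1)

/-- LAM: basic facts about the lattices `Lam O p b a`. -/
def St_LAM : Prop := ∀ (O K V : Type) [CommRing O] [IsDomain O] [IsDiscreteValuationRing O]
  [Field K] [Algebra O K] [IsFractionRing O K] [AddCommGroup V] [Module K V] [Module O V]
  [IsScalarTower O K V] [FiniteDimensional K V] (p : Kˣ), IsUnif O p →
  ∀ (ι : Type) [Finite ι] (b : Basis ι K V),
  (∀ a, Submodule.IsLattice K (Lam O p b a)) ∧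
  (∀ a x, x ∈ Lam O p b a ↔ ∀ i, ∃ r : O, b.repr x i = algebraMap O K r * ((p ^ a i : Kˣ) : K)) ∧
  (∀ a a', Lam O p b a ≤ Lam O p b a' ↔ ∀ i, a' i ≤ a i) ∧
  (∀ a (k : ℤ), p ^ k • Lam O p b a = Lam O p b (fun i => a i + k))

/-- WIN: neighbouring classes have representatives in the window `(p L0, L0]`. -/
def St_WIN : Prop := ∀ (O K V : Type) [CommRing O] [IsDomain O] [IsDiscreteValuationRing O]
  [Field K] [Algebra O K] [IsFractionRing O K] [AddCommGroup V] [Module K V] [Module O V]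
  [IsScalarTower O K V] [FiniteDimensional K V] (p : Kˣ), IsUnif O p → 0 < finrank K V →
  ∀ L L0 : Lat O K V, (∀ k : ℤ, p ^ k • L.1 ≤ L0.1 ∨ L0.1 ≤ p ^ k • L.1) →
  ∃ k : ℤ, p ^ k • L.1 ≤ L0.1 ∧ p • L0.1 < p ^ k • L.1

/-- STD: the standard chamber of a basis. -/
def St_STD : Prop := ∀ (O K V : Type) [CommRing O] [IsDomain O] [IsDiscreteValuationRing O]
  [Field K] [Algebra O K] [IsFractionRing O K] [AddCommGroup V] [Module K V] [Module O V]
  [IsScalarTower O K V] [FiniteDimensional K V] (p : Kˣ), IsUnif O p →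
  ∀ (m : ℕ) (b : Basis (Fin m) K V), 0 < m →
  IsChamber O p m (fun k => Lam O p b (cexp m k))

/-- ADB: an adapted sequence gives a basis. -/
def St_ADB : Prop := ∀ (O K V : Type) [CommRing O] [IsDomain O] [IsDiscreteValuationRing O]
  [Field K] [Algebra O K] [IsFractionRing O K] [AddCommGroup V] [Module K V] [Module O V]
  [IsScalarTower O K V] [FiniteDimensional K V] (p : Kˣ), IsUnif O p →
  ∀ (m : ℕ), 0 < m → finrank K V = m → ∀ (L : ℤ → Submodule O V) (e : ℤ → V),
  IsChamber O p m L → IsAdapted O p m L e →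
  ∃ b : Basis (Fin m) K V, (∀ i : Fin m, b i = e i) ∧ ∀ k, L k = Lam O p b (cexp m k)

/-- COM: two chambers lie in a common apartment. -/
def St_COM : Prop := ∀ (O K V : Type) [CommRing O] [IsDomain O] [IsDiscreteValuationRing O]
  [Field K] [Algebra O K] [IsFractionRing O K] [AddCommGroup V] [Module K V] [Module O V]
  [IsScalarTower O K V] [FiniteDimensional K V] (p : Kˣ), IsUnif O p →
  ∀ (m : ℕ), 0 < m → finrank K V = m → ∀ (L M : ℤ → Submodule O V),
  IsChamber O p m L → IsChamber O p m M →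
  ∃ b : Basis (Fin m) K V, (∀ k, ∃ a, L k = Lam O p b a) ∧ (∀ k, ∃ a, M k = Lam O p b a)

/-- APC: an apartment which contains a chamber comes from an adapted sequence. -/
def St_APC : Prop := ∀ (O K V : Type) [CommRing O] [IsDomain O] [IsDiscreteValuationRing O]
  [Field K] [Algebra O K] [IsFractionRing O K] [AddCommGroup V] [Module K V] [Module O V]
  [IsScalarTower O K V] [FiniteDimensional K V] (p : Kˣ), IsUnif O p →
  ∀ (m : ℕ), 0 < m → finrank K V = m → ∀ (L : ℤ → Submodule O V) (b : Basis (Fin m) K V),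
  IsChamber O p m L → (∀ k, ∃ a, L k = Lam O p b a) →
  ∃ e : ℤ → V, IsAdapted O p m L e ∧ ∃ (τ : Equiv.Perm (Fin m)) (c : Fin m → ℤ),
    ∀ i : Fin m, e i = p ^ c i • b (τ i)

/-- RIG: lattices split by two bases adapted to the same chamber have the same exponents. -/
def St_RIG : Prop := ∀ (O K V : Type) [CommRing O] [IsDomain O] [IsDiscreteValuationRing O]
  [Field K] [Algebra O K] [IsFractionRing O K] [AddCommGroup V] [Module K V] [Module O V]
  [IsScalarTower O K V] [FiniteDimensional K V] (p : Kˣ), IsUnif O p →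
  ∀ (m : ℕ), 0 < m → ∀ (L : ℤ → Submodule O V) (e e' : ℤ → V) (b b' : Basis (Fin m) K V),
  IsAdapted O p m L e → IsAdapted O p m L e' →
  (∀ i : Fin m, b i = e i) → (∀ i : Fin m, b' i = e' i) →
  (∀ k, L k = Lam O p b (cexp m k)) → (∀ k, L k = Lam O p b' (cexp m k)) →
  ∀ a a', Lam O p b a = Lam O p b' a' → a = a'

/-- EXT: every face lies in a chamber. -/
def St_EXT : Prop := ∀ (O K V : Type) [CommRing O] [IsDomain O] [IsDiscreteValuationRing O]
  [Field K] [Algebra O K] [IsFractionRing O K] [AddCommGroup V] [Module K V] [Module O V]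
  [IsScalarTower O K V] [FiniteDimensional K V] (p : Kˣ), IsUnif O p →
  ∀ (m : ℕ), 0 < m → finrank K V = m → ∀ s ∈ (bt O K V).faces,
  ∃ L : ℤ → Submodule O V, IsChamber O p m L ∧
    ∀ x ∈ s, ∃ l : Lat O K V, cls l = x ∧ ∃ k, l.1 = L k

/-- EXA: every face in an apartment lies in a chamber in this apartment. -/
def St_EXA : Prop := ∀ (O K V : Type) [CommRing O] [IsDomain O] [IsDiscreteValuationRing O]
  [Field K] [Algebra O K] [IsFractionRing O K] [AddCommGroup V] [Module K V] [Module O V]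
  [IsScalarTower O K V] [FiniteDimensional K V] (p : Kˣ), IsUnif O p →
  ∀ (m : ℕ), 0 < m → finrank K V = m → ∀ (b : Basis (Fin m) K V), ∀ s ∈ (bt O K V).faces,
  (s : Set (Vert O K V)) ⊆ apt O p b →
  ∃ L : ℤ → Submodule O V, IsChamber O p m L ∧ (∀ k, ∃ a, L k = Lam O p b a) ∧
    ∀ x ∈ s, ∃ l : Lat O K V, cls l = x ∧ ∃ k, l.1 = L k

/-- COX: apartments are isomorphic to the alcove complex. -/
def St_COX : Prop := ∀ (O K V : Type) [CommRing O] [IsDomain O] [IsDiscreteValuationRing O]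
  [Field K] [Algebra O K] [IsFractionRing O K] [AddCommGroup V] [Module K V] [Module O V]
  [IsScalarTower O K V] [FiniteDimensional K V] (p : Kˣ), IsUnif O p →
  ∀ (n : ℕ) (b : Basis (Fin (n + 1)) K V),
  Nonempty (CIso (full (bt O K V) (apt O p b)) (alcoveComplex n))

/-- TRA: the isomorphism between two apartments given by two bases. -/
def St_TRA : Prop := ∀ (O K V : Type) [CommRing O] [IsDomain O] [IsDiscreteValuationRing O]
  [Field K] [Algebra O K] [IsFractionRing O K] [AddCommGroup V] [Module K V] [Module O V]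
  [IsScalarTower O K V] [FiniteDimensional K V] (p : Kˣ), IsUnif O p →
  ∀ (ι : Type) [Finite ι] (b b' : Basis ι K V),
  ∃ φ : CIso (full (bt O K V) (apt O p b)) (full (bt O K V) (apt O p b')),
    ∀ (x : apt O p b) (L L' : Lat O K V) (a : ι → ℤ), cls L = x.1 →
      L.1 = Lam O p b a → L'.1 = Lam O p b' a → (φ.toEquiv x).1 = cls L'

/-- LF: local finiteness. -/
def St_LF : Prop := ∀ (O K V : Type) [CommRing O] [IsDomain O] [IsDiscreteValuationRing O]
  [Field K] [Algebra O K] [IsFractionRing O K] [AddCommGroup V] [Module K V] [Module O V]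
  [IsScalarTower O K V] [FiniteDimensional K V] (p : Kˣ), IsUnif O p → 0 < finrank K V →
  Finite (IsLocalRing.ResidueField O) → IsLocallyFinite (bt O K V)

/-- ACT: the linear group acts on the lattice complex. -/
def St_ACT : Prop := ∀ (O K V : Type) [CommRing O] [Field K] [Algebra O K]
  [AddCommGroup V] [Module K V] [Module O V] [IsScalarTower O K V],
  ∃ T : (V ≃ₗ[K] V) →* autGroup (bt O K V), ∀ (g : V ≃ₗ[K] V) (L L' : Lat O K V),
    L'.1 = L.1.map ((g.restrictScalars O : V ≃ₗ[O] V) : V →ₗ[O] V) →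
    (T g).1 (cls L) = cls L'

/-- BLD: the lattice complex is a building of type `A~_n`. -/
def St_BLD : Prop := ∀ (O K V : Type) [CommRing O] [IsDomain O] [IsDiscreteValuationRing O]
  [Field K] [Algebra O K] [IsFractionRing O K] [AddCommGroup V] [Module K V] [Module O V]
  [IsScalarTower O K V] [FiniteDimensional K V] (p : Kˣ), IsUnif O p →
  ∀ n : ℕ, finrank K V = n + 1 →
  IsBuildingA n (bt O K V) {A | ∃ b : Basis (Fin (n + 1)) K V, A = apt O p b}

end Pool.Agent.H315R2.EB
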