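import Pool.Agent.H315R2.EB.FIN
import Pool.Agent.H315R2.EB.LAU
import Pool.Agent.H315R2.EB.LAM
import Pool.Agent.H315R2.EB.EXA
import Pool.Agent.H315R2.EB.COM
import Pool.Agent.H418R2.EB.ACT
import Pool.Agent.H40R2.EB.ADB
import Pool.Agent.H218R2.EB.AL
import Pool.Agent.H359R2.EB.APC
import Pool.Agent.H577R2.EB.COX
import Pool.Agent.H51R2.EB.HOM
import Pool.Agent.H406R2.EB.LF
import Pool.Agent.H259R2.EB.RAC
import Pool.Agent.H316R2.EB.RIG
import Pool.Agent.H473R2.EB.STD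
import Pool.Agent.H847R2.EB.TOP
import Pool.Agent.H797R2.EB.TRA
import Pool.Agent.H25R2.EB.VAL
import Pool.Agent.H479R2.EB.FLAG
import Pool.Agent.H368R2.EB.EXT
import Pool.Agent.H575R2.EB.SUR

/-!
# Everything together (MP_26e62b_al)

Joint work: helpers 25, 40, 51, 170, 218, 259, 315, 316, 359, 368, 406, 418, 473, 479, 575,
577, 797, 847, 989.
-/

namespace Pool.Agent.H315R2.EB

theorem allHOM : St_HOM := HOM_proof Pool.Agent.H25R2.EB.VAL_proof
theorem allLAM : St_LAM := LAM_proof Pool.Agent.H25R2.EB.VAL_proof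
theorem allWIN : St_WIN := Pool.Agent.H170R2.EB.WIN_proof Pool.Agent.H25R2.EB.VAL_proof allHOM
theorem allSTD : St_STD := STD_proof Pool.Agent.H25R2.EB.VAL_proof allLAM
theorem allADB : St_ADB :=
  Pool.Agent.H40R2.EB.ADB_proof Pool.Agent.H25R2.EB.VAL_proof allHOM allLAM
theorem allCOM : St_COM := COM_proof Pool.Agent.H25R2.EB.VAL_proof allHOM allLAM allADB
theorem allAPC : St_APC :=
  Pool.Agent.H359R2.EB.APC_proof Pool.Agent.H25R2.EB.VAL_proof allHOM allLAM
theorem allRIG : St_RIG := Pool.Agent.H316R2.EB.RIG_proof Pool.Agent.H25R2.EB.VAL_proof allLAM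
theorem allEXT : St_EXT :=
  EXT_proof Pool.Agent.H479R2.EB.FLAG_proof Pool.Agent.H25R2.EB.VAL_proof allHOM allWIN
theorem allEXA : St_EXA :=
  EXA_proof Pool.Agent.H479R2.EB.FLAG_proof Pool.Agent.H25R2.EB.VAL_proof allHOM allLAM allWIN
    allSTD
theorem allCOX : St_COX :=
  Pool.Agent.H577R2.EB.COX_proof AL_proof Pool.Agent.H25R2.EB.VAL_proof allHOM allLAM
theorem allTRA : St_TRA :=
  Pool.Agent.H797R2.EB.TRA_proof Pool.Agent.H25R2.EB.VAL_proof allHOM allLAM ACT_proof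
theorem allLF : St_LF := LF_proof Pool.Agent.H25R2.EB.VAL_proof allHOM allWIN

end Pool.Agent.H315R2.EB
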