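import Mathlib

/-!
# Surface groups on Euclidean buildings: definitions (MP_26e62b_al)
-/

namespace Pool.Agent.H315R2.EB

open Module
open scoped Pointwise

universe u v

/-! ## Simplicial complexes and buildings of type `A~_n` -/

section Complexes

variable {V : Type u} {V' : Type v}

/-- The full subcomplex of `Δ` on a set `A` of vertices. -/
def full (Δ : PreAbstractSimplicialComplex V) (A : Set V) : PreAbstractSimplicialComplex A where
  faces := {s | s.map (Function.Embedding.subtype (· ∈ A)) ∈ Δ.faces}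
  isRelLowerSet_faces := by
    intro s hs
    refine ⟨Finset.map_nonempty.1 (Δ.isRelLowerSet_faces hs).1, fun t hts ht => ?_⟩
    exact (Δ.isRelLowerSet_faces hs).2 (Finset.map_subset_map.2 hts) (Finset.map_nonempty.2 ht)

/-- Isomorphisms of simplicial complexes: bijections of the vertex sets which preserve the
faces in both directions. -/
structure CIso (Δ : PreAbstractSimplicialComplex V) (Δ' : PreAbstractSimplicialComplex V') where
  /-- the bijection of the vertices -/
  toEquiv : V ≃ V'
  /-- it preserves faces in both directions -/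
  faces_iff : ∀ s : Finset V, s.map toEquiv.toEmbedding ∈ Δ'.faces ↔ s ∈ Δ.faces

/-- The group of automorphisms of a simplicial complex. -/
def autGroup (Δ : PreAbstractSimplicialComplex V) : Subgroup (Equiv.Perm V) where
  carrier := {φ | ∀ s : Finset V, s.map φ.toEmbedding ∈ Δ.faces ↔ s ∈ Δ.faces}
  mul_mem' := by
    intro φ ψ hφ hψ s
    have h1 : s.map (φ * ψ).toEmbedding = (s.map ψ.toEmbedding).map φ.toEmbedding := by
      rw [Finset.map_map]
      rfl
    rw [h1, hφ, hψ]
  one_mem' := by
    intro s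
    have h1 : s.map (1 : Equiv.Perm V).toEmbedding = s := by
      exact Finset.map_refl
    rw [h1]
  inv_mem' := by
    intro φ hφ s
    have h1 := hφ (s.map (φ⁻¹).toEmbedding)
    have h2 : (s.map (φ⁻¹).toEmbedding).map φ.toEmbedding = s := by
      rw [Finset.map_map]
      have h3 : (φ⁻¹).toEmbedding.trans φ.toEmbedding = Function.Embedding.refl V := by
        ext x
        simp
      rw [h3, Finset.map_refl]
    rw [h2] at h1
    exact h1.symm

/-- The topology of pointwise convergence on the vertices on the automorphism group. -/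
@[instance_reducible]
def autTopology (Δ : PreAbstractSimplicialComplex V) : TopologicalSpace (autGroup Δ) :=
  TopologicalSpace.induced (fun φ => (φ : Equiv.Perm V).toFun)
    (@Pi.topologicalSpace V (fun _ => V) (fun _ => ⊥))

/-- Every vertex lies in finitely many faces. -/
def IsLocallyFinite (Δ : PreAbstractSimplicialComplex V) : Prop :=
  ∀ v : V, {s | s ∈ Δ.faces ∧ v ∈ s}.Finite

/-- The complement, in the Euclidean space `{x ∈ ℝ^(n+1) : ∑ x_i = 0}`, of all the
hyperplanes `x_i - x_j = k`, `i ≠ j`, `k ∈ ℤ` (the walls of the affine Weyl group of type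
`A~_n`). -/
def offWalls (n : ℕ) : Set (Fin (n + 1) → ℝ) :=
  {x | ∑ i, x i = 0 ∧ ∀ i j, i ≠ j → ∀ k : ℤ, x i - x j ≠ k}

/-- The (open) alcoves are the connected components of the complement of the walls. -/
def IsAlcove (n : ℕ) (C : Set (Fin (n + 1) → ℝ)) : Prop :=
  ∃ x ∈ offWalls n, C = connectedComponentIn (offWalls n) x

/-- The vertices of the alcoves: the points at which all differences of coordinates are
integers. -/
def AlcoveVertex (n : ℕ) : Type :=
  {x : Fin (n + 1) → ℝ // ∑ i, x i = 0 ∧ ∀ i j, ∃ k : ℤ, x i - x j = k}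

/-- The Euclidean Coxeter complex of type `A~_n`: the faces are the nonempty finite sets of
vertices contained in a closed alcove. -/
def alcoveComplex (n : ℕ) : PreAbstractSimplicialComplex (AlcoveVertex n) where
  faces := {s | s.Nonempty ∧ ∃ C, IsAlcove n C ∧ ∀ v ∈ s, v.1 ∈ closure C}
  isRelLowerSet_faces := by
    rintro s ⟨h1, C, hC, h2⟩
    exact ⟨h1, fun t hts ht => ⟨ht, C, hC, fun v hv => h2 v (hts hv)⟩⟩

/-- `Δ` is a building of type `A~_n` with the (full) apartments `𝒜`. -/
structure IsBuildingA (n : ℕ) (Δ : PreAbstractSimplicialComplex V) (𝒜 : Set (Set V)) :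
    Prop where
  singleton_mem : ∀ v : V, {v} ∈ Δ.faces
  coxeter : ∀ A ∈ 𝒜, Nonempty (CIso (full Δ A) (alcoveComplex n))
  common : ∀ s ∈ Δ.faces, ∀ t ∈ Δ.faces, ∃ A ∈ 𝒜, (s : Set V) ⊆ A ∧ (t : Set V) ⊆ A
  transition : ∀ A ∈ 𝒜, ∀ A' ∈ 𝒜, ∀ s ∈ Δ.faces, ∀ t ∈ Δ.faces,
    (s : Set V) ⊆ A ∩ A' → (t : Set V) ⊆ A ∩ A' →
    ∃ φ : CIso (full Δ A) (full Δ A'), ∀ x : A, (x.1 ∈ s ∨ x.1 ∈ t) → (φ.toEquiv x).1 = x.1

end Complexes

/-! ## The groups -/

/-- The relator `[a_1,b_1]⋯[a_g,b_g]`. -/
def surfaceRelator (g : ℕ) : FreeGroup (Fin g ⊕ Fin g) :=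
  (List.ofFn fun i : Fin g =>
    FreeGroup.of (Sum.inl i) * FreeGroup.of (Sum.inr i) *
      (FreeGroup.of (Sum.inl i))⁻¹ * (FreeGroup.of (Sum.inr i))⁻¹).prod

/-- The fundamental group of the closed orientable surface of genus `g`. -/
abbrev SurfaceGroup (g : ℕ) : Type := PresentedGroup {surfaceRelator g}

/-- `M` is right-angled: all entries off the diagonal are `2` or `∞` (written `0`). -/
def IsRightAngled {B : Type} (M : CoxeterMatrix B) : Prop :=
  ∀ i j, i ≠ j → M i j = 2 ∨ M i j = 0

/-! ## Lattices -/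

section Lattices

variable (O K V : Type) [CommRing O] [Field K] [Algebra O K]
  [AddCommGroup V] [Module K V] [Module O V] [IsScalarTower O K V]

/-- The `O`-lattices in `V`. -/
abbrev Lat : Type := {L : Submodule O V // Submodule.IsLattice K L}

/-- Homothety of lattices. -/
def homothety : Setoid (Lat O K V) where
  r L L' := ∃ c : Kˣ, L'.1 = c • L.1
  iseqv :=
    { refl := fun L => ⟨1, (one_smul _ _).symm⟩
      symm := by
        rintro L L' ⟨c, hc⟩
        exact ⟨c⁻¹, by rw [hc, inv_smul_smul]⟩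
      trans := by
        rintro L L' L'' ⟨c, hc⟩ ⟨d, hd⟩
        exact ⟨d * c, by rw [hd, hc, mul_smul]⟩ }

/-- The vertices: homothety classes of lattices. -/
def Vert : Type := Quotient (homothety O K V)

variable {O K V}

/-- The homothety class of a lattice. -/
def cls (L : Lat O K V) : Vert O K V := Quotient.mk _ L

variable (O K V)

/-- The lattice complex: a nonempty finite set of classes of lattices is a face iff the set
of all lattices in these classes is totally ordered by inclusion. -/
def bt : PreAbstractSimplicialComplex (Vert O K V) where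
  faces := {s | s.Nonempty ∧
    ∀ L L' : Lat O K V, cls L ∈ s → cls L' ∈ s → L.1 ≤ L'.1 ∨ L'.1 ≤ L.1}
  isRelLowerSet_faces := by
    rintro s ⟨h1, h2⟩
    exact ⟨h1, fun t hts ht => ⟨ht, fun L L' hL hL' => h2 L L' (hts hL) (hts hL')⟩⟩

variable {K V}

/-- The lattice with basis `p^(a i) • b i`. -/
def Lam {ι : Type} (p : Kˣ) (b : Basis ι K V) (a : ι → ℤ) : Submodule O V :=
  Submodule.span O (Set.range fun i => p ^ a i • b i)

/-- The apartment of the basis `b`. -/
def apt {ι : Type} (p : Kˣ) (b : Basis ι K V) : Set (Vert O K V) :=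
  {x | ∃ L : Lat O K V, cls L = x ∧ ∃ a : ι → ℤ, L.1 = Lam O p b a}

/-- `p` is (the image in `K` of) a uniformiser of `O`. -/
def IsUnif (p : Kˣ) : Prop := ∃ ϖ : O, Irreducible ϖ ∧ algebraMap O K ϖ = p

/-- Chambers: complete periodic chains of lattices `⋯ > L_k > L_(k+1) > ⋯`,
`L_(k+m) = p L_k`, `m = dim V`. -/
structure IsChamber (p : Kˣ) (m : ℕ) (L : ℤ → Submodule O V) : Prop where
  lat : ∀ k, Submodule.IsLattice K (L k)
  cov : ∀ k, L (k + 1) ⋖ L k
  per : ∀ k, L (k + m) = p • L k

/-- The exponents of the standard chamber: the least `q` with `k ≤ i + q m`. -/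
def cexp (m : ℕ) (k : ℤ) (i : Fin m) : ℤ := -(((i : ℕ) - k) / m)

/-- `e` is a sequence adapted to the chamber `L`. -/
structure IsAdapted (p : Kˣ) (m : ℕ) (L : ℤ → Submodule O V) (e : ℤ → V) : Prop where
  mem : ∀ k, e k ∈ L k
  not_mem : ∀ k, e k ∉ L (k + 1)
  per : ∀ k, e (k + m) = p • e k

end Lattices

end Pool.Agent.H315R2.EB
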