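import Pool.Agent.H315R2.EB.Stubs

/-!
# Final assembly (MP_26e62b_al)
-/

namespace Pool.Agent.H315R2.EB

open Module
open scoped Pointwise

section Fin


/-- The matrix over the Laurent series as a linear automorphism. -/
noncomputable def toAut {ι : Type} [Fintype ι] [DecidableEq ι]
    (ψ : Polynomial (ZMod 2) →+* LaurentSeries (ZMod 2)) :
    (Matrix ι ι (Polynomial (ZMod 2)))ˣ →* ((ι → (LaurentSeries (ZMod 2))) ≃ₗ[(LaurentSeries (ZMod 2))] (ι → (LaurentSeries (ZMod 2)))) :=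
  ((LinearMap.GeneralLinearGroup.generalLinearEquiv (LaurentSeries (ZMod 2)) (ι → (LaurentSeries (ZMod 2)))).toMonoidHom.comp
    (Matrix.GeneralLinearGroup.toLin (n := ι) (R := (LaurentSeries (ZMod 2)))).toMonoidHom).comp
    (Units.map (RingHom.mapMatrix ψ : Matrix ι ι (Polynomial (ZMod 2)) →+* Matrix ι ι (LaurentSeries (ZMod 2))).toMonoidHom)

theorem toAut_apply {ι : Type} [Fintype ι] [DecidableEq ι]
    (ψ : Polynomial (ZMod 2) →+* LaurentSeries (ZMod 2))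
    (g : (Matrix ι ι (Polynomial (ZMod 2)))ˣ) (x : ι → (LaurentSeries (ZMod 2))) :
    toAut ψ g x = (g.1.map ψ).mulVec x := rfl

theorem toAut_single {ι : Type} [Fintype ι] [DecidableEq ι]
    (ψ : Polynomial (ZMod 2) →+* LaurentSeries (ZMod 2))
    (g : (Matrix ι ι (Polynomial (ZMod 2)))ˣ) (i j : ι) :
    toAut ψ g (Pi.single j 1) i = ψ (g.1 i j) := by
  rw [toAut_apply]
  simp [Matrix.mulVec, dotProduct, Pi.single_apply]

/-- The standard lattice. -/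
noncomputable def L0 (ι : Type) [Finite ι] : Submodule (PowerSeries (ZMod 2)) (ι → (LaurentSeries (ZMod 2))) :=
  Lam (PowerSeries (ZMod 2)) lp (Pi.basisFun (LaurentSeries (ZMod 2)) ι) (fun _ => 0)

theorem mem_L0 (hL : St_LAM) (hu : IsUnif (PowerSeries (ZMod 2)) lp) {ι : Type} [Finite ι] (k : ℤ) (x : ι → (LaurentSeries (ZMod 2))) :
    x ∈ lp ^ k • L0 ι ↔ ∀ i, ∃ r : (PowerSeries (ZMod 2)), x i = algebraMap (PowerSeries (ZMod 2)) (LaurentSeries (ZMod 2)) r * ((lp ^ k : (LaurentSeries (ZMod 2))ˣ) : (LaurentSeries (ZMod 2))) := by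
  have h := hL (PowerSeries (ZMod 2)) (LaurentSeries (ZMod 2)) (ι → (LaurentSeries (ZMod 2))) lp hu ι (Pi.basisFun (LaurentSeries (ZMod 2)) ι)
  unfold L0
  rw [h.2.2.2, h.2.1]
  simp

theorem single_mem_L0 (hL : St_LAM) (hu : IsUnif (PowerSeries (ZMod 2)) lp) {ι : Type} [Finite ι] [DecidableEq ι]
    (j : ι) : (Pi.single j 1 : ι → (LaurentSeries (ZMod 2))) ∈ L0 ι := by
  have h := (mem_L0 hL hu 0 (Pi.single j 1 : ι → (LaurentSeries (ZMod 2)))).2
  rw [zpow_zero, one_smul] at h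
  apply h
  intro i
  by_cases hij : i = j
  · subst hij
    exact ⟨1, by simp⟩
  · exact ⟨0, by simp [hij]⟩

/-- if `g L0 = p^k L0` and `g` has polynomial entries in `1/t`, then `k ≤ 0`. -/
theorem exponent_le (hL : St_LAM) (hu : IsUnif (PowerSeries (ZMod 2)) lp)
    (ψ : Polynomial (ZMod 2) →+* LaurentSeries (ZMod 2))
    (hψ2 : ∀ q, (∃ x : (PowerSeries (ZMod 2)), algebraMap _ (LaurentSeries (ZMod 2)) x * lp = ψ q) → q = 0)
    {ι : Type} [Fintype ι] [DecidableEq ι] [Nonempty ι]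
    (g : (Matrix ι ι (Polynomial (ZMod 2)))ˣ) (k : ℤ)
    (hk : ∀ x ∈ L0 ι, toAut ψ g x ∈ lp ^ k • L0 ι) : k ≤ 0 := by
  by_contra hcon
  have hk1 : 1 ≤ k := by omega
  have h0 : g.1 = 0 := by
    refine Matrix.ext fun i j => ?_
    apply hψ2
    have h1 := hk _ (single_mem_L0 hL hu j)
    rw [mem_L0 hL hu] at h1
    obtain ⟨r, hr⟩ := h1 i
    rw [toAut_single] at hr
    obtain ⟨ϖ, -, hϖ⟩ := hu
    refine ⟨r * ϖ ^ (k - 1).toNat, ?_⟩
    rw [hr, map_mul, map_pow, hϖ, mul_assoc]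
    congr 1
    have h2 : ((lp ^ k : (LaurentSeries (ZMod 2))ˣ) : (LaurentSeries (ZMod 2))) = ((lp ^ (k - 1) * lp : (LaurentSeries (ZMod 2))ˣ) : (LaurentSeries (ZMod 2))) := by
      rw [← zpow_add_one, sub_add_cancel]
    rw [h2, Units.val_mul]
    congr 1
    obtain ⟨n, hn⟩ := Int.eq_ofNat_of_zero_le (show 0 ≤ k - 1 by omega)
    rw [hn]
    simp
  have h1 : (g.1 * (g⁻¹).1) = 1 := by
    rw [← Units.val_mul, mul_inv_cancel, Units.val_one]
  rw [h0, zero_mul] at h1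
  exact zero_ne_one h1

theorem stab (hH : St_HOM) (hL : St_LAM) (hu : IsUnif (PowerSeries (ZMod 2)) lp)
    (ψ : Polynomial (ZMod 2) →+* LaurentSeries (ZMod 2))
    (hψ1 : ∀ q, (∃ x : (PowerSeries (ZMod 2)), algebraMap _ (LaurentSeries (ZMod 2)) x = ψ q) → q.natDegree = 0)
    (hψ2 : ∀ q, (∃ x : (PowerSeries (ZMod 2)), algebraMap _ (LaurentSeries (ZMod 2)) x * lp = ψ q) → q = 0)
    {ι : Type} [Fintype ι] [DecidableEq ι] [Nonempty ι]
    (T : ((ι → (LaurentSeries (ZMod 2))) ≃ₗ[(LaurentSeries (ZMod 2))] (ι → (LaurentSeries (ZMod 2)))) →* autGroup (bt (PowerSeries (ZMod 2)) (LaurentSeries (ZMod 2)) (ι → (LaurentSeries (ZMod 2)))))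
    (hT : ∀ (g : (ι → (LaurentSeries (ZMod 2))) ≃ₗ[(LaurentSeries (ZMod 2))] (ι → (LaurentSeries (ZMod 2)))) (L L' : Lat (PowerSeries (ZMod 2)) (LaurentSeries (ZMod 2)) (ι → (LaurentSeries (ZMod 2)))),
      L'.1 = L.1.map ((g.restrictScalars (PowerSeries (ZMod 2)) : (ι → (LaurentSeries (ZMod 2))) ≃ₗ[(PowerSeries (ZMod 2))] (ι → (LaurentSeries (ZMod 2)))) :
        (ι → (LaurentSeries (ZMod 2))) →ₗ[(PowerSeries (ZMod 2))] (ι → (LaurentSeries (ZMod 2)))) → (T g).1 (cls L) = cls L')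
    (g : (Matrix ι ι (Polynomial (ZMod 2)))ˣ) (hlat : Submodule.IsLattice (LaurentSeries (ZMod 2)) (L0 ι))
    (hfix : (T (toAut ψ g)).1 (cls ⟨L0 ι, hlat⟩) = cls ⟨L0 ι, hlat⟩) :
    ∀ i j, (g.1 i j).natDegree = 0 := by
  have hH' := hH (PowerSeries (ZMod 2)) (LaurentSeries (ZMod 2)) (ι → (LaurentSeries (ZMod 2))) lp hu
  -- from a fixed class to an exponent
  have key : ∀ h : (Matrix ι ι (Polynomial (ZMod 2)))ˣ,
      (T (toAut ψ h)).1 (cls ⟨L0 ι, hlat⟩) = cls ⟨L0 ι, hlat⟩ →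
      ∃ k : ℤ, (L0 ι).map (((toAut ψ h).restrictScalars (PowerSeries (ZMod 2)) :
        (ι → (LaurentSeries (ZMod 2))) ≃ₗ[(PowerSeries (ZMod 2))] (ι → (LaurentSeries (ZMod 2)))) : (ι → (LaurentSeries (ZMod 2))) →ₗ[(PowerSeries (ZMod 2))] (ι → (LaurentSeries (ZMod 2)))) = lp ^ k • L0 ι := by
    intro h hh
    have hl2 : Submodule.IsLattice (LaurentSeries (ZMod 2)) ((L0 ι).map (((toAut ψ h).restrictScalars (PowerSeries (ZMod 2)) :
        (ι → (LaurentSeries (ZMod 2))) ≃ₗ[(PowerSeries (ZMod 2))] (ι → (LaurentSeries (ZMod 2)))) : (ι → (LaurentSeries (ZMod 2))) →ₗ[(PowerSeries (ZMod 2))] (ι → (LaurentSeries (ZMod 2))))) := by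
      refine ⟨Submodule.FG.map _ hlat.fg, ?_⟩
      rw [Submodule.map_coe]
      have h3 : Submodule.span (LaurentSeries (ZMod 2)) ((((toAut ψ h).restrictScalars (PowerSeries (ZMod 2)) :
        (ι → (LaurentSeries (ZMod 2))) ≃ₗ[(PowerSeries (ZMod 2))] (ι → (LaurentSeries (ZMod 2)))) : (ι → (LaurentSeries (ZMod 2))) →ₗ[(PowerSeries (ZMod 2))] (ι → (LaurentSeries (ZMod 2)))) '' (L0 ι : Set (ι → (LaurentSeries (ZMod 2))))) =
        (Submodule.span (LaurentSeries (ZMod 2)) (L0 ι : Set (ι → (LaurentSeries (ZMod 2))))).map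
          ((toAut ψ h : (ι → (LaurentSeries (ZMod 2))) ≃ₗ[(LaurentSeries (ZMod 2))] (ι → (LaurentSeries (ZMod 2)))) : (ι → (LaurentSeries (ZMod 2))) →ₗ[(LaurentSeries (ZMod 2))] (ι → (LaurentSeries (ZMod 2)))) := by
        rw [Submodule.map_span]
        rfl
      rw [h3, hlat.span_eq_top, Submodule.map_top]
      exact LinearEquiv.range _
    have h4 := hT (toAut ψ h) ⟨L0 ι, hlat⟩ ⟨_, hl2⟩ rfl
    rw [hh] at h4
    exact (hH'.2.1 _ _).1 h4
  obtain ⟨k, hk⟩ := key g hfix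
  have hfix' : (T (toAut ψ g⁻¹)).1 (cls ⟨L0 ι, hlat⟩) = cls ⟨L0 ι, hlat⟩ := by
    rw [map_inv, map_inv]
    have h5 := congrArg (T (toAut ψ g)).1.symm hfix
    rw [Equiv.symm_apply_apply] at h5
    exact h5.symm
  have hm : ∀ x ∈ L0 ι, toAut ψ g x ∈ lp ^ k • L0 ι := by
    intro x hx
    rw [← hk]
    exact Submodule.mem_map_of_mem hx
  have hm' : ∀ x ∈ L0 ι, toAut ψ g⁻¹ x ∈ lp ^ (-k) • L0 ι := by
    intro x hx
    have h6 : x ∈ lp ^ (-k) • (lp ^ k • L0 ι) := by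
      rw [smul_smul, ← zpow_add]
      simpa using hx
    rw [← hk] at h6
    obtain ⟨y, hy, rfl⟩ := h6
    obtain ⟨z, hz, rfl⟩ := hy
    have h7 : toAut ψ g⁻¹ (lp ^ (-k) • (((toAut ψ g).restrictScalars (PowerSeries (ZMod 2)) :
        (ι → (LaurentSeries (ZMod 2))) ≃ₗ[(PowerSeries (ZMod 2))] (ι → (LaurentSeries (ZMod 2)))) : (ι → (LaurentSeries (ZMod 2))) →ₗ[(PowerSeries (ZMod 2))] (ι → (LaurentSeries (ZMod 2)))) z) = lp ^ (-k) • z := by
      have h8 : ∀ (c : (LaurentSeries (ZMod 2))ˣ) (v : ι → (LaurentSeries (ZMod 2))), toAut ψ g⁻¹ (c • v) = c • toAut ψ g⁻¹ v := by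
        intro c v
        exact map_smul (toAut ψ g⁻¹) (c : (LaurentSeries (ZMod 2))) v
      rw [h8]
      congr 1
      have h9 : toAut ψ g⁻¹ (toAut ψ g z) = (toAut ψ g⁻¹ * toAut ψ g) z := rfl
      rw [← map_mul, inv_mul_cancel, map_one] at h9
      exact h9
    refine (show toAut ψ g⁻¹ (lp ^ (-k) • (((toAut ψ g).restrictScalars (PowerSeries (ZMod 2)) :
        (ι → (LaurentSeries (ZMod 2))) ≃ₗ[(PowerSeries (ZMod 2))] (ι → (LaurentSeries (ZMod 2)))) : (ι → (LaurentSeries (ZMod 2))) →ₗ[(PowerSeries (ZMod 2))] (ι → (LaurentSeries (ZMod 2)))) z) ∈ lp ^ (-k) • L0 ι from ?_)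
    rw [h7]
    exact ⟨z, hz, rfl⟩
  have hk1 := exponent_le hL hu ψ hψ2 g k hm
  have hk2 := exponent_le hL hu ψ hψ2 g⁻¹ (-k) hm'
  have hk0 : k = 0 := by omega
  subst hk0
  intro i j
  apply hψ1
  have h10 := hm _ (single_mem_L0 hL hu j)
  rw [mem_L0 hL hu] at h10
  obtain ⟨r, hr⟩ := h10 i
  rw [toAut_single] at hr
  exact ⟨r, by rw [hr]; simp⟩

/-- The general theorem. -/
theorem general (hR : St_RAC) (hU : St_LAU) (hH : St_HOM) (hL : St_LAM) (hT : St_ACT)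
    (hF : St_LF) (hB : St_BLD) (hTop : St_TOP)
    (B : Type) [Fintype B] [DecidableEq B] (M : CoxeterMatrix B) (hM : IsRightAngled M) :
    ∃ (n : ℕ) (V : Type) (Δ : PreAbstractSimplicialComplex V) (𝒜 : Set (Set V)),
      IsBuildingA n Δ 𝒜 ∧ IsLocallyFinite Δ ∧ ∃ (ρ : M.Group →* autGroup Δ) (v : V),
        ∀ w, (ρ w).1 v = v → w = 1 := by
  obtain ⟨hu, hfin, ψ, hψ1, hψ2⟩ := hU
  obtain ⟨ρ0, hρ0⟩ := hR B M hM
  obtain ⟨T, hT⟩ := hT (PowerSeries (ZMod 2)) (LaurentSeries (ZMod 2)) (Finset B → (LaurentSeries (ZMod 2)))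
  have hcard : finrank (LaurentSeries (ZMod 2)) (Finset B → (LaurentSeries (ZMod 2))) = Fintype.card (Finset B) := by
    rw [Module.finrank_fintype_fun_eq_card]
  have hpos : 0 < Fintype.card (Finset B) := Fintype.card_pos
  have hn : finrank (LaurentSeries (ZMod 2)) (Finset B → (LaurentSeries (ZMod 2))) = (Fintype.card (Finset B) - 1) + 1 := by
    rw [hcard]
    omega
  have hlat : Submodule.IsLattice (LaurentSeries (ZMod 2)) (L0 (Finset B)) :=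
    (hL (PowerSeries (ZMod 2)) (LaurentSeries (ZMod 2)) (Finset B → (LaurentSeries (ZMod 2))) lp hu (Finset B) (Pi.basisFun (LaurentSeries (ZMod 2)) _)).1 _
  refine ⟨Fintype.card (Finset B) - 1, Vert (PowerSeries (ZMod 2)) (LaurentSeries (ZMod 2)) (Finset B → (LaurentSeries (ZMod 2))), bt (PowerSeries (ZMod 2)) (LaurentSeries (ZMod 2)) (Finset B → (LaurentSeries (ZMod 2))), _,
    hB (PowerSeries (ZMod 2)) (LaurentSeries (ZMod 2)) (Finset B → (LaurentSeries (ZMod 2))) lp hu _ hn, hF (PowerSeries (ZMod 2)) (LaurentSeries (ZMod 2)) (Finset B → (LaurentSeries (ZMod 2))) lp hu (by omega) hfin,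
    (T.comp (toAut ψ)).comp ρ0, cls ⟨L0 (Finset B), hlat⟩, ?_⟩
  intro w hw
  by_contra hne
  obtain ⟨i, j, hij⟩ := hρ0 w hne
  have := stab hH hL hu ψ hψ1 hψ2 T hT (ρ0 w) hlat hw i j
  omega

end Fin

end Pool.Agent.H315R2.EB
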